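import Pool.Agent.Q331.Traj.Upper

/-!
# Optimal multipoint trajectories need speed more than `√L`

The cities are the corners of a square of side `L = 3 k ^ 2 + 2 k`, visited cyclically for many
rounds.  In every leg one coordinate moves by `L` and the other one has to come back to its value.
With speed up to `2 k` every leg takes `2 k + 1` steps.  A coordinate that has to come back within
`τ` steps has (up to a constant) `|v| + |v'| ≤ τ` at the two visits, and with speed at most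
`V < 2 k` this makes the average leg longer than `2 k + 1`.
-/

open Finset Pool.Agent.Q331.Traj

namespace Pool.Agent.Results.MP_98930f_lc.SpeedAboveSqrt

theorem exists_optimal {d n : ℕ} {x : Fin (n + 1) → Fin d → ℤ}
    (h : ∃ ℓ p v, Feasible x ℓ p v) : ∃ ℓ p v, Optimal x ℓ p v := by
  classical
  obtain ⟨p, v, hf⟩ := Nat.find_spec h
  exact ⟨Nat.find h, p, v, hf, fun ℓ' p' v' h' => Nat.find_min' h ⟨p', v', h'⟩⟩

theorem num1 {k V r θ : ℝ} (hV0 : 0 ≤ V) (k0 : 0 < k) (hVr : V ≤ r * k) (hr2 : r < 2)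
    (k3 : 4 ≤ (4 - r ^ 2) * k) (hθ0 : 0 ≤ θ) :
    2 * V * (V - k - θ) + 3 * V ≤ 3 * k ^ 2 + 2 * k + (V - k - θ) ^ 2 := by
  have e1 : (k : ℝ) ^ 2 ≤ (k + θ) ^ 2 := pow_le_pow_left₀ k0.le (by linarith) 2
  have e2 : V ^ 2 ≤ r ^ 2 * k ^ 2 := by
    rw [← mul_pow]; exact pow_le_pow_left₀ hV0 hVr 2
  have e3 : 4 * k ≤ (4 - r ^ 2) * k * k := mul_le_mul_of_nonneg_right k3 k0.le
  have e4 : r * k ≤ 2 * k := mul_le_mul_of_nonneg_right hr2.le k0.le
  have e5 : (4 - r ^ 2) * k * k = 4 * k ^ 2 - r ^ 2 * k ^ 2 := by ring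
  have e : 3 * (k : ℝ) ^ 2 + 2 * k + (V - k - θ) ^ 2 - (2 * V * (V - k - θ) + 3 * V) =
      3 * k ^ 2 + 2 * k - 3 * V - V ^ 2 + (k + θ) ^ 2 := by ring
  rw [e5] at e3
  linarith

theorem num2 {k V : ℝ} (hV0 : 0 ≤ V) (k4 : 6 < k) (hV : V < 2 * k) :
    2 * V ^ 2 < 3 * (3 * k ^ 2 + 2 * k - 2 * V) := by
  have e2 : V ^ 2 ≤ (2 * k) ^ 2 := pow_le_pow_left₀ hV0 hV.le 2
  have e3 : 6 * k < k * k := mul_lt_mul_of_pos_right k4 (by linarith)
  nlinarith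

theorem num3 {k V r θ : ℝ} (k0 : 0 < k) (hVr : V ≤ r * k) (hr2 : r < 2)
    (k2 : 9 < (2 - r) ^ 2 * k) (hθ0 : 0 ≤ θ) (hθ1 : θ < 1) :
    0 < 3 * k ^ 2 + 2 * k - 2 * V + 2 * (V - k - θ) * V - (V - k - θ) ^ 2 -
      4 * (V - k - θ) - (V + (V - k - θ)) * (2 * k + 1) := by
  have e : 3 * (k : ℝ) ^ 2 + 2 * k - 2 * V + 2 * (V - k - θ) * V - (V - k - θ) ^ 2 -
      4 * (V - k - θ) - (V + (V - k - θ)) * (2 * k + 1) =
      (2 * k - V) ^ 2 + (7 * k - 8 * V + 5 * θ - θ ^ 2) := by ring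
  rw [e]
  have hη : 0 < 2 - r := by linarith
  have e1 : (2 - r) * k ≤ 2 * k - V := by linarith
  have e2 : ((2 - r) * k) ^ 2 ≤ (2 * k - V) ^ 2 := pow_le_pow_left₀ (by positivity) e1 2
  have e3 : 9 * k < (2 - r) ^ 2 * k * k := mul_lt_mul_of_pos_right k2 k0
  have e4 : ((2 - r) * k) ^ 2 = (2 - r) ^ 2 * k * k := by ring
  have e5 : r * k < 2 * k := mul_lt_mul_of_pos_right hr2 k0
  have e6 : θ ^ 2 ≤ θ := by nlinarith
  rw [e4] at e2
  linarith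

theorem main (lam : ℝ) (hlam : lam < 2 / √3) (L₀ : ℕ) :
    ∃ (n : ℕ) (x : Fin (n + 1) → Fin 2 → ℤ), L₀ ≤ spread x ∧ (∃ ℓ p v, Optimal x ℓ p v) ∧
      ∀ ℓ p v, Optimal x ℓ p v → ∃ i ≤ ℓ, ∃ k, lam * √(spread x) < |(v i k : ℝ)| := by
  -- the constants
  obtain ⟨mu, hmu1, hmu2, hmu3⟩ : ∃ mu : ℝ, 1 ≤ mu ∧ lam ≤ mu ∧ 3 * mu ^ 2 < 4 := by
    refine ⟨max lam 1, le_max_right _ _, le_max_left _ _, ?_⟩
    have h3 : (0 : ℝ) < √3 := Real.sqrt_pos.2 (by norm_num)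
    have h32 : √3 ^ 2 = 3 := Real.sq_sqrt (by norm_num)
    have h1 : (1 : ℝ) < 2 / √3 := by
      rw [lt_div_iff₀ h3]
      nlinarith
    have h2 : max lam 1 < 2 / √3 := max_lt hlam h1
    have h4 : 0 < max lam 1 := lt_max_of_lt_right one_pos
    have h5 : max lam 1 * √3 < 2 := (lt_div_iff₀ h3).1 h2
    have h6 : (max lam 1 * √3) ^ 2 < 2 ^ 2 := by
      apply pow_lt_pow_left₀ h5 (by positivity) (by norm_num)
    rw [mul_pow, h32] at h6
    linarith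
  set q : ℝ := 3 * mu ^ 2 with hq
  obtain ⟨r, hr0, hr2, hr⟩ : ∃ r : ℝ, 0 < r ∧ r < 2 ∧ r ^ 2 = (q + 4) / 2 := by
    have hq0 : 0 ≤ q := by positivity
    refine ⟨√((q + 4) / 2), Real.sqrt_pos.2 (by linarith), ?_, Real.sq_sqrt (by linarith)⟩
    rw [Real.sqrt_lt' (by norm_num)]
    linarith
  have hrq : 0 < r ^ 2 - q := by rw [hr]; linarith
  have hr4 : 0 < 4 - r ^ 2 := by rw [hr]; linarith
  have hη : 0 < 2 - r := by linarith
  obtain ⟨k, hk⟩ := exists_nat_gt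
    (2 * mu ^ 2 / (r ^ 2 - q) + 9 / (2 - r) ^ 2 + 4 / (4 - r ^ 2) + 6 + L₀)
  have t1 : 0 ≤ 2 * mu ^ 2 / (r ^ 2 - q) := by positivity
  have t2 : 0 ≤ 9 / (2 - r) ^ 2 := by positivity
  have t3 : 0 ≤ 4 / (4 - r ^ 2) := by positivity
  have t4 : (0 : ℝ) ≤ L₀ := Nat.cast_nonneg _
  have k1 : 2 * mu ^ 2 ≤ (r ^ 2 - q) * k := by
    have : 2 * mu ^ 2 / (r ^ 2 - q) ≤ k := by linarith
    rw [div_le_iff₀ hrq] at this
    linarith
  have k2 : 9 < (2 - r) ^ 2 * k := by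
    have : 9 / (2 - r) ^ 2 < k := by linarith
    rw [div_lt_iff₀ (by positivity)] at this
    linarith
  have k3 : 4 ≤ (4 - r ^ 2) * k := by
    have : 4 / (4 - r ^ 2) ≤ k := by linarith
    rw [div_le_iff₀ hr4] at this
    linarith
  have k4 : (6 : ℝ) < k := by linarith
  have k5 : (L₀ : ℝ) ≤ k := by linarith
  have k0 : (0 : ℝ) < k := by linarith
  have k5' : L₀ ≤ k := by exact_mod_cast k5
  -- the side length and the speed bound
  set L : ℕ := 3 * k ^ 2 + 2 * k with hL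
  have hLr : (L : ℝ) = 3 * k ^ 2 + 2 * k := by rw [hL]; push_cast; ring
  set V : ℝ := mu * √L with hV
  have hV0 : 0 ≤ V := by positivity
  have hV2 : V ^ 2 = mu ^ 2 * (3 * k ^ 2 + 2 * k) := by
    rw [hV, mul_pow, Real.sq_sqrt (Nat.cast_nonneg _), hLr]
  have hVk : (k : ℝ) ≤ V := by
    apply le_of_sq_le_sq _ hV0
    rw [hV2]
    have h1 : 1 ≤ mu ^ 2 := one_le_pow₀ hmu1
    have h2 : 1 * (3 * (k : ℝ) ^ 2 + 2 * k) ≤ mu ^ 2 * (3 * (k : ℝ) ^ 2 + 2 * k) :=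
      mul_le_mul_of_nonneg_right h1 (by positivity)
    have h3 : 0 ≤ (k : ℝ) ^ 2 := by positivity
    linarith
  have hVr : V ≤ r * k := by
    apply le_of_sq_le_sq _ (by positivity)
    rw [hV2, mul_pow]
    have e : mu ^ 2 * (3 * (k : ℝ) ^ 2 + 2 * k) = q * k ^ 2 + (2 * mu ^ 2) * k := by
      rw [hq]; ring
    have e2 : (2 * mu ^ 2) * k ≤ (r ^ 2 - q) * k * k := mul_le_mul_of_nonneg_right k1 k0.le
    have e3 : (r ^ 2 - q) * k * k = r ^ 2 * k ^ 2 - q * k ^ 2 := by ring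
    rw [e]
    linarith
  set s : ℕ := ⌊V⌋₊ - k with hs
  have hkV : k ≤ ⌊V⌋₊ := Nat.le_floor hVk
  have hsr : (s : ℝ) = ⌊V⌋₊ - k := by rw [hs, Nat.cast_sub hkV]
  have f1 : (⌊V⌋₊ : ℝ) ≤ V := Nat.floor_le hV0
  have f2 : V < ⌊V⌋₊ + 1 := Nat.lt_floor_add_one V
  obtain ⟨θ, hθ⟩ : ∃ θ : ℝ, θ = V - k - s := ⟨_, rfl⟩
  have hθ0 : 0 ≤ θ := by rw [hθ, hsr]; linarith
  have hθ1 : θ < 1 := by rw [hθ, hsr]; linarith
  have hs' : (s : ℝ) = V - k - θ := by rw [hθ]; ring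
  have hsV : (s : ℝ) ≤ V := by rw [hs']; linarith
  have hV2k : V < 2 * k := hVr.trans_lt (mul_lt_mul_of_pos_right hr2 k0)
  have g1 : 2 * V * s + 3 * V ≤ ((L : ℤ) : ℝ) + s ^ 2 := by
    rw [Int.cast_natCast, hLr, hs']
    exact num1 hV0 k0 hVr hr2 k3 hθ0
  have g2 : 2 * V ^ 2 < 3 * (((L : ℤ) : ℝ) - 2 * V) := by
    rw [Int.cast_natCast, hLr]
    exact num2 hV0 k4 hV2k
  set E : ℝ := ((L : ℤ) : ℝ) - 2 * V + 2 * s * V - s ^ 2 - 4 * s - (V + s) * (2 * k + 1) with hE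
  have hE0 : 0 < E := by
    rw [hE, Int.cast_natCast, hLr, hs']
    exact num3 k0 hVr hr2 k2 hθ0 hθ1
  obtain ⟨C, hC⟩ := feasible_tour k
  obtain ⟨N, hN⟩ := exists_nat_gt (((V + s) * C + 2 * s * V) / E)
  have hN1 : (V + s) * C + 2 * s * V < (N + 1) * E := by
    rw [div_lt_iff₀ hE0] at hN
    linarith
  have hcast : (3 * (k : ℤ) ^ 2 + 2 * k) = ((L : ℕ) : ℤ) := by rw [hL]; push_cast; ring
  rw [hcast] at hC
  have hsp : spread (cities L (N + 1)) = L := spread_cities (by omega)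
  refine ⟨4 * (N + 1), cities L (N + 1), ?_, ?_, ?_⟩
  · rw [hsp, hL]; nlinarith
  · obtain ⟨p, v, hf⟩ := hC (N + 1)
    exact exists_optimal ⟨_, p, v, hf⟩
  · intro ℓ p v hopt
    by_contra hcon
    push Not at hcon
    rw [hsp] at hcon
    obtain ⟨p', v', hf'⟩ := hC (N + 1)
    have hℓ := hopt.2 _ _ _ hf'
    obtain ⟨i, hi1, hi2, hi3⟩ := hopt.1.visits
    have hbd : ∀ i ≤ ℓ, ∀ k, |(v i k : ℝ)| ≤ V := by
      intro i hi k
      refine (hcon i hi k).trans ?_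
      rw [hV]
      gcongr
    set I : ℕ → ℕ := fun j => if h : j < 4 * (N + 1) + 1 then i ⟨j, h⟩ else 0 with hI
    have hIj : ∀ j (h : j < 4 * (N + 1) + 1), I j = i ⟨j, h⟩ := fun j h => by
      simp only [hI, h, dif_pos]
    have low := tour_lower (M := 4 * (N + 1)) hopt.1.traj (by linarith : (0 : ℝ) < V) hbd hsV g1 g2
      (I := I) (fun j hj => by
        rw [hIj j (by omega), hIj (j + 1) (by omega)]
        exact hi1 (by simp [Fin.le_def]))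
      (fun j hj => by rw [hIj j (by omega)]; exact hi2 _)
      (fun j hj => by
        rw [hIj j (by omega)]
        exact hi3 ⟨j, by omega⟩)
    have hℓ' : (ℓ : ℝ) ≤ 4 * (N + 1) * (2 * k + 1) + C := by exact_mod_cast hℓ
    have h1 : (V + s) * ℓ ≤ (V + s) * (4 * (N + 1) * (2 * k + 1) + C) := by gcongr
    have h2 : ((4 * (N + 1) : ℕ) : ℝ) * (((L : ℤ) : ℝ) - 2 * V + 2 * s * V - s ^ 2 - 4 * s) =
        4 * (N + 1) * E + (V + s) * (4 * (N + 1) * (2 * k + 1)) := by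
      rw [hE]; push_cast; ring
    have h3 : 0 < (N + 1) * E := by positivity
    rw [h2] at low
    linarith

/-- **Optimal multipoint trajectories need speed more than `√L`.**  For every `lam < 2 / √3 ≈ 1.1547`
there are cities in the plane with arbitrarily large `L` such that every optimal trajectory has, at
some step and in some dimension, speed greater than `lam * √L`.  In particular (`lam = 1`) it is not
true that every sequence of cities has an optimal trajectory with all speeds at most `√L`. -/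
theorem result :
    (∀ lam : ℝ, lam < 2 / √3 → ∀ L₀ : ℕ, ∃ (n : ℕ) (x : Fin (n + 1) → Fin 2 → ℤ),
      L₀ ≤ spread x ∧ (∃ ℓ p v, Optimal x ℓ p v) ∧
      ∀ ℓ p v, Optimal x ℓ p v → ∃ i ≤ ℓ, ∃ k, lam * √(spread x) < |(v i k : ℝ)|) ∧
    ¬ ∀ d : ℕ, 1 ≤ d → ∀ (n : ℕ) (x : Fin (n + 1) → Fin d → ℤ),
      ∃ ℓ p v, Optimal x ℓ p v ∧ ∀ i ≤ ℓ, ∀ k, |(v i k : ℝ)| ≤ √(spread x) := by
  refine ⟨main, fun hcon => ?_⟩
  have h3 : (0 : ℝ) < √3 := Real.sqrt_pos.2 (by norm_num)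
  have h32 : √3 ^ 2 = 3 := Real.sq_sqrt (by norm_num)
  have h1 : (1 : ℝ) < 2 / √3 := by
    rw [lt_div_iff₀ h3]
    nlinarith
  obtain ⟨n, x, -, -, h⟩ := main 1 h1 0
  obtain ⟨ℓ, p, v, hopt, hle⟩ := hcon 2 (by norm_num) n x
  obtain ⟨i, hi, k, hlt⟩ := h ℓ p v hopt
  have := hle i hi k
  linarith

end Pool.Agent.Results.MP_98930f_lc.SpeedAboveSqrt
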